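import Pool.Agent.SZG.StmtsM

/-!
# Squad SZG, row TAU: the vectors `T(kZ + uδ)` and `T(kZ)` are congruent
-/

set_option autoImplicit false

namespace Pool.Agent.SZG.H98

open scoped BigOperators
open Pool.Agent.THS Pool.Agent.SZG

section nv

variable {K ι : Type} [Field K] [Finite ι] (v : AbsoluteValue K ℝ) (y : ι → K)

theorem le_nv (i : ι) : v (y i) ≤ nv v y :=
  le_ciSup (f := fun i => v (y i)) (Set.finite_range _).bddAbove i

theorem exists_nv [Nonempty ι] : ∃ i, v (y i) = nv v y :=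
  exists_eq_ciSup_of_finite (f := fun i => v (y i))

theorem nv_pos (hy : y ≠ 0) : 0 < nv v y := by
  obtain ⟨i, hi⟩ := Function.ne_iff.1 hy
  exact lt_of_lt_of_le (v.pos hi) (le_nv v y i)

end nv

/-- ultrametric law for differences -/
theorem na_sub {K : Type} [Field K] {v : AbsoluteValue K ℝ} (h : IsNonarchimedean v) (x y : K) :
    v (x - y) ≤ max (v x) (v y) := by
  rw [sub_eq_add_neg]
  refine (h x (-y)).trans ?_
  rw [v.map_neg]

theorem tau (tcg : TcgStmt) (wxc : WxcStmt) : TauStmt := by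
  intro K I _ _ v θ g E L0 c e s T x W X Z δ h k u p hp
  obtain ⟨o, ho⟩ := exists_nv v (T 0)
  have h1 := (tcg K I v θ g E L0 c e s T x W X Z δ h k 0 u o ho).2
  have h2 := (wxc K I v L0 c e W X h.wx).2.2.2.2.2.1 (k • Z) (u • δ)
  simp only [zero_smul, add_zero] at h1
  have hc1 := h.can k u
  have hc2 := h.can k (-u)
  rw [neg_smul, ← sub_eq_add_neg] at hc2
  obtain ⟨i, hi⟩ : ∃ i, i = k • Z := ⟨_, rfl⟩
  obtain ⟨j, hj⟩ : ∃ j, j = u • δ := ⟨_, rfl⟩
  rw [← hi] at hp
  rw [← hi, ← hj] at h1 h2 hc1 hc2 ⊢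
  obtain ⟨A, hA⟩ : ∃ A, A = (T j o / T 0 o) ^ 2 := ⟨_, rfl⟩
  rw [← hA] at h1
  have hT0 : 0 < nv v (T 0) := nv_pos v _ (h.qs.T0 0)
  have hTi : 0 < nv v (T i) := nv_pos v _ (h.qs.T0 i)
  have hWp := h.wx.pos (i + j)
  have hWm := h.wx.pos (i - j)
  obtain ⟨M, hM⟩ : ∃ M, M = nv v (T 0) * W (i + j) := ⟨_, rfl⟩
  rw [← hM] at hc1 ⊢
  have hMpos : 0 < M := by
    rw [hM]
    positivity
  have hθM : θ * M < M := by
    have := mul_lt_mul_of_pos_right h.th1 hMpos
    rwa [one_mul] at this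
  obtain ⟨d, hd⟩ := exists_nv v (T (i - j))
  rw [hc2] at hd
  have hdpos : 0 < v (T (i - j) d) := by
    rw [hd]
    positivity
  have hdne : T (i - j) d ≠ 0 := v.ne_zero_iff.1 hdpos.ne'
  -- the congruence with the scalar `lam`
  obtain ⟨lam, hlam⟩ : ∃ lam, lam = A * T i d / T (i - j) d := ⟨_, rfl⟩
  have key : ∀ e', v (T (i + j) e' - lam * T i e') ≤ θ * M := by
    intro e'
    have h3 := h1 e' d
    have h4 : T (i + j) e' * T (i - j) d - A * (T i e' * T i d) =
        (T (i + j) e' - lam * T i e') * T (i - j) d := by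
      rw [hlam]
      field_simp
    rw [h4, v.map_mul, hd] at h3
    have h5 : θ * (nv v (T 0) ^ 2 * W i ^ 2 * W j ^ 2) =
        (θ * M) * (nv v (T 0) * W (i - j)) := by
      rw [hM]
      have h6 : nv v (T 0) ^ 2 * W i ^ 2 * W j ^ 2 = nv v (T 0) ^ 2 * (W i ^ 2 * W j ^ 2) := by ring
      rw [h6, ← h2]
      ring
    rw [h5] at h3
    exact le_of_mul_le_mul_right h3 (by positivity)
  -- at a maximal coordinate of `T (i + j)`
  obtain ⟨e1, he1⟩ := exists_nv v (T (i + j))
  rw [hc1] at he1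
  have hlam1 : M ≤ v lam * nv v (T i) := by
    by_contra hlt
    push Not at hlt
    have h3 : v (lam * T i e1) < M := by
      rw [v.map_mul]
      exact lt_of_le_of_lt (mul_le_mul_of_nonneg_left (le_nv v (T i) e1) (v.nonneg _)) hlt
    have h4 : v (T (i + j) e1) ≤ max (v (T (i + j) e1 - lam * T i e1)) (v (lam * T i e1)) := by
      have h5 := h.na (T (i + j) e1 - lam * T i e1) (lam * T i e1)
      rw [sub_add_cancel] at h5
      exact h5
    rw [he1] at h4
    have h6 := max_lt (lt_of_le_of_lt (key e1) hθM) h3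
    linarith
  have hlamp : M ≤ v (lam * T i p) := by
    rw [v.map_mul, hp]
    exact hlam1
  have hpM : v (T (i + j) p) ≤ M := by
    rw [← hc1]
    exact le_nv v _ p
  have hpe : v (T (i + j) p) = M := by
    refine le_antisymm hpM ?_
    by_contra hlt
    push Not at hlt
    have h4 := na_sub h.na (T (i + j) p) (T (i + j) p - lam * T i p)
    rw [sub_sub_cancel] at h4
    have h6 := max_lt hlt (lt_of_le_of_lt (key p) hθM)
    linarith
  refine ⟨hpe, fun e' => ?_⟩
  have hpne : T i p ≠ 0 := by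
    rw [← v.ne_zero_iff, hp]
    exact hTi.ne'
  obtain ⟨t, ht⟩ : ∃ t, t = T (i + j) p / T i p := ⟨_, rfl⟩
  rw [← ht]
  have htp : t * T i p = T (i + j) p := by
    rw [ht]
    field_simp
  have h3 : T (i + j) e' - t * T i e' = (T (i + j) e' - lam * T i e') + (lam - t) * T i e' := by
    ring
  rw [h3]
  refine (h.na _ _).trans (max_le (key e') ?_)
  have h4 : v ((lam - t) * T i e') ≤ v ((lam - t) * T i p) := by
    rw [v.map_mul, v.map_mul, hp]
    exact mul_le_mul_of_nonneg_left (le_nv v (T i) e') (v.nonneg _)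
  refine h4.trans ?_
  have h5 : (lam - t) * T i p = -(T (i + j) p - lam * T i p) := by
    rw [sub_mul, htp]
    ring
  rw [h5, v.map_neg]
  exact key p

end Pool.Agent.SZG.H98
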